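import Pool.Agent.Q106.AR.NmA

/-! # Project AR, job NM: norms of divisors and of elements, second part -/

set_option autoImplicit false
set_option linter.unusedSectionVars false
set_option linter.deprecated false

namespace Pool.Agent.Q106.AR

open NumberField IsDedekindDomain Pool.Agent.Q5.BR Pool.Agent.Q92.AR

section
variable {F E : Type} [Field F] [NumberField F] [Field E] [NumberField E] [Algebra F E]

/-- a common denominator prime to `v` -/
theorem exists_den (v : HeightOneSpectrum (𝓞 F)) (y : E)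
    (hy : ∀ w : HeightOneSpectrum (𝓞 E), w.under (𝓞 F) = v → w.valuation E y ≤ 1) :
    ∃ s : 𝓞 F, s ∉ v.asIdeal ∧ ∃ z : 𝓞 E, algebraMap F E (s : F) * y = z := by
  let D : Ideal (𝓞 E) :=
    { carrier := {d | ∃ z : 𝓞 E, (d : E) * y = z}
      add_mem' := by
        rintro a b ⟨z, hz⟩ ⟨z', hz'⟩
        refine ⟨z + z', ?_⟩
        have e1 : ((a + b : 𝓞 E) : E) = a + b := rfl
        have e2 : ((z + z' : 𝓞 E) : E) = z + z' := rfl
        rw [e1, e2, add_mul, hz, hz']
      zero_mem' := ⟨0, by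
        have e1 : ((0 : 𝓞 E) : E) = 0 := rfl
        rw [e1, zero_mul]⟩
      smul_mem' := by
        rintro c a ⟨z, hz⟩
        refine ⟨c * z, ?_⟩
        have e1 : ((c • a : 𝓞 E) : E) = c * a := rfl
        have e2 : ((c * z : 𝓞 E) : E) = c * z := rfl
        rw [e1, e2, mul_assoc, hz] }
  have hD : ∀ d : 𝓞 E, d ∈ D ↔ ∃ z : 𝓞 E, (d : E) * y = z := fun d => Iff.rfl
  by_contra hcon
  push Not at hcon
  have h1 : D.comap (algebraMap (𝓞 F) (𝓞 E)) ≤ v.asIdeal := by
    intro s hs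
    by_contra hsv
    rw [Ideal.mem_comap, hD] at hs
    obtain ⟨z, hz⟩ := hs
    exact hcon s hsv z hz
  have hvp : v.asIdeal.IsPrime := v.isPrime
  obtain ⟨Q, hQD, hQ, hQv⟩ := Ideal.exists_ideal_over_prime_of_isIntegral v.asIdeal D h1
  have hQ0 : Q ≠ ⊥ := by
    intro h
    apply v.ne_bot
    rw [← hQv, h, ← RingHom.ker_eq_comap_bot]
    exact (RingHom.injective_iff_ker_eq_bot _).1 (FaithfulSMul.algebraMap_injective (𝓞 F) (𝓞 E))
  obtain ⟨w, hw⟩ : ∃ w : HeightOneSpectrum (𝓞 E), w.asIdeal = Q := ⟨⟨Q, hQ, hQ0⟩, rfl⟩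
  have hwv : w.under (𝓞 F) = v := by
    apply HeightOneSpectrum.ext
    rw [← hQv, ← hw]
    rfl
  have hle : D ≤ w.asIdeal := by
    rw [hw]
    exact hQD
  obtain ⟨n, d, hnd⟩ := HeightOneSpectrum.exists_primeCompl_mul_eq_of_integer w y (hy w hwv)
  have hd : (d : 𝓞 E) ∈ D := by
    rw [hD]
    refine ⟨n, ?_⟩
    rw [mul_comm]
    exact hnd
  have hdw : (d : 𝓞 E) ∉ w.asIdeal := d.2
  exact hdw (hle hd)

theorem prod_cong {Ω ι : Type} [Field Ω] [DecidableEq ι] (a : Ω) (N : ℕ) (ha : IsIntegral ℤ a) (b : ι → Ω)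
    (hb : ∀ i, IsIntegral ℤ (b i)) (s : Finset ι) :
    ∃ c : Ω, IsIntegral ℤ c ∧ ∏ i ∈ s, (a + N * b i) = a ^ s.card + N * c := by
  induction s using Finset.induction_on with
  | empty => exact ⟨0, isIntegral_zero, by simp⟩
  | insert i s hi ih =>
    obtain ⟨c, hc, h⟩ := ih
    refine ⟨a * c + b i * a ^ s.card + N * b i * c, ?_, ?_⟩
    · exact ((ha.mul hc).add ((hb i).mul (ha.pow _))).add (((isIntegral_natCast N).mul (hb i)).mul hc)
    · rw [Finset.prod_insert hi, h, Finset.card_insert_of_notMem hi]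
      ring

theorem norm_cong_int {N : ℕ} (hN : N ≠ 0) (s : 𝓞 F) (z : 𝓞 E) :
    ∃ u : 𝓞 F, Algebra.norm F (algebraMap F E (s : F) + N * (z : E)) = (s : F) ^ Module.finrank F E + N * (u : F) := by
  classical
  obtain ⟨c, hc, h⟩ := prod_cong (Ω := AlgebraicClosure F) (ι := E →ₐ[F] AlgebraicClosure F)
    (algebraMap F (AlgebraicClosure F) (s : F)) N ((RingOfIntegers.isIntegral_coe s).algebraMap)
    (fun σ => σ (z : E)) (fun σ => (RingOfIntegers.isIntegral_coe z).map (σ.restrictScalars ℤ)) Finset.univ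
  have h1 := Algebra.norm_eq_prod_embeddings F (AlgebraicClosure F) (algebraMap F E (s : F) + N * (z : E))
  have h2 : ∀ σ : E →ₐ[F] AlgebraicClosure F, σ (algebraMap F E (s : F) + N * (z : E)) =
      algebraMap F (AlgebraicClosure F) (s : F) + N * σ (z : E) := by
    intro σ
    rw [map_add, map_mul, map_natCast, AlgHom.commutes]
  simp only [h2] at h1
  rw [h, Finset.card_univ, AlgHom.card] at h1
  have hN' : (N : F) ≠ 0 := Nat.cast_ne_zero.2 hN
  have hN'' : (N : AlgebraicClosure F) ≠ 0 := Nat.cast_ne_zero.2 hN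
  obtain ⟨δ, hδ⟩ : ∃ δ : F, δ = (Algebra.norm F (algebraMap F E (s : F) + N * (z : E)) - (s : F) ^ Module.finrank F E) / N :=
    ⟨_, rfl⟩
  have h3 : algebraMap F (AlgebraicClosure F) δ = c := by
    rw [hδ, map_div₀, map_sub, h1, map_pow, map_natCast, add_sub_cancel_left]
    field_simp
  have h4 : IsIntegral ℤ δ := by
    rw [← isIntegral_algebraMap_iff (FaithfulSMul.algebraMap_injective F (AlgebraicClosure F)), h3]
    exact hc
  refine ⟨⟨δ, h4⟩, ?_⟩
  show _ = (s : F) ^ Module.finrank F E + N * δ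
  rw [hδ]
  field_simp
  ring

/-- **The norm of an element congruent to one.** -/
theorem nm_cong {N : ℕ} {x : Eˣ} (hN : N ≠ 0) (hx : Cong N (x : E)) : Cong N (nu F E x : F) := by
  intro v hv
  have hNE : (N : E) ≠ 0 := Nat.cast_ne_zero.2 hN
  have hNF : (N : F) ≠ 0 := Nat.cast_ne_zero.2 hN
  obtain ⟨s, hs, z, hz⟩ := exists_den (E := E) v (((x : E) - 1) / N) (by
    intro w hw
    have h1 : (N : 𝓞 E) ∈ w.asIdeal := by
      rw [← hw] at hv
      have h2 : algebraMap (𝓞 F) (𝓞 E) (N : 𝓞 F) ∈ w.asIdeal := hv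
      rwa [map_natCast] at h2
    rw [map_div₀]
    apply div_le_one_of_le₀ (hx w h1) zero_le')
  have h1 : algebraMap F E (s : F) * x = algebraMap F E (s : F) + N * (z : E) := by
    rw [← hz]
    field_simp
    ring
  obtain ⟨u, hu⟩ := norm_cong_int hN s z
  rw [← h1, map_mul, Algebra.norm_algebraMap] at hu
  have h2 : (s : F) ^ Module.finrank F E * ((nu F E x : F) - 1) = N * u := by
    have e1 : (nu F E x : F) = Algebra.norm F (x : E) := rfl
    rw [e1, mul_sub, hu]
    ring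
  have h3 : v.valuation F (s : F) = 1 := by
    have := (HeightOneSpectrum.valuation_eq_one_iff_notMem (K := F) v (r := s)).2 hs
    exact this
  have h4 := congrArg (v.valuation F) h2
  rw [map_mul, map_mul, map_pow, h3, one_pow, one_mul] at h4
  rw [h4]
  exact mul_le_of_le_one_right' (v.valuation_le_one u)

/-- **The norm at a real place.** -/
theorem nm_pos (φ : F →+* ℝ) (x : Eˣ) (h : ∀ χ : E →+* ℝ, χ.comp (algebraMap F E) = φ → 0 < χ (x : E)) :
    0 < φ (nu F E x : F) := by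
  classical
  let _ : Algebra F ℂ := (Complex.ofRealHom.comp φ).toAlgebra
  have halg : ∀ f : F, algebraMap F ℂ f = (φ f : ℂ) := fun f => rfl
  have h1 := Algebra.norm_eq_prod_embeddings F ℂ (x : E)
  rw [halg] at h1
  have hne : ∀ σ : E →ₐ[F] ℂ, σ (x : E) ≠ 0 := fun σ => (map_ne_zero σ).2 x.ne_zero
  let c : (E →ₐ[F] ℂ) → (E →ₐ[F] ℂ) := fun σ =>
    { toRingHom := (starRingEnd ℂ).comp (σ : E →+* ℂ)
      commutes' := fun r => by
        show (starRingEnd ℂ) (σ (algebraMap F E r)) = _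
        rw [AlgHom.commutes, halg, Complex.conj_ofReal] }
  have hc : ∀ σ e, c σ e = (starRingEnd ℂ) (σ e) := fun σ e => rfl
  have h2 : ∏ σ : E →ₐ[F] ℂ, (σ (x : E) / (‖σ (x : E)‖ : ℂ)) = 1 := by
    refine Finset.prod_involution (fun σ _ => c σ) ?_ ?_ ?_ ?_
    · intro σ _
      have h0 : (‖σ (x : E)‖ : ℂ) ≠ 0 := by
        rw [Ne, Complex.ofReal_eq_zero, norm_eq_zero]
        exact hne σ
      rw [hc, Complex.norm_conj, div_mul_div_comm, Complex.mul_conj, Complex.normSq_eq_norm_sq]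
      rw [div_eq_one_iff_eq (mul_ne_zero h0 h0)]
      push_cast
      ring
    · intro σ _ hσ hcσ
      apply hσ
      have hr : ComplexEmbedding.IsReal (σ : E →+* ℂ) := by
        rw [ComplexEmbedding.isReal_iff]
        ext e
        rw [ComplexEmbedding.conjugate_coe_eq]
        exact (hc σ e).symm.trans (DFunLike.congr_fun hcσ e)
      have h3 : hr.embedding.comp (algebraMap F E) = φ := by
        ext f
        have := ComplexEmbedding.IsReal.coe_embedding_apply hr (algebraMap F E f)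
        have h4 : (σ : E →+* ℂ) (algebraMap F E f) = (φ f : ℂ) := (σ.commutes f).trans (halg f)
        rw [h4] at this
        exact_mod_cast this
      have h4 := h _ h3
      have h5 : ((hr.embedding (x : E) : ℝ) : ℂ) = σ (x : E) := ComplexEmbedding.IsReal.coe_embedding_apply hr (x : E)
      rw [← h5, Complex.norm_real, Real.norm_of_nonneg h4.le]
      apply div_self
      rw [Ne, Complex.ofReal_eq_zero]
      exact h4.ne'
    · intro σ _
      exact Finset.mem_univ _
    · intro σ _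
      ext e
      rw [hc, hc, Complex.conj_conj]
  have h3 : ∏ σ : E →ₐ[F] ℂ, σ (x : E) = ((∏ σ : E →ₐ[F] ℂ, ‖σ (x : E)‖ : ℝ) : ℂ) := by
    rw [Finset.prod_div_distrib, div_eq_one_iff_eq] at h2
    · rw [h2]
      push_cast
      rfl
    · rw [Finset.prod_ne_zero_iff]
      intro σ _
      rw [Ne, Complex.ofReal_eq_zero, norm_eq_zero]
      exact hne σ
  rw [h3] at h1
  have h4 : φ (Algebra.norm F (x : E)) = ∏ σ : E →ₐ[F] ℂ, ‖σ (x : E)‖ := by exact_mod_cast h1
  show 0 < φ (Algebra.norm F (x : E))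
  rw [h4]
  exact Finset.prod_pos (fun σ _ => norm_pos_iff.2 (hne σ))

end

/-- **Job NM.** -/
theorem nm : S_Nm := by
  intro F E _ _ _ _ _
  refine ⟨fun x => nm_prin x, fun N x hN hx => nm_cong hN hx, ?_, fun N D hD => nm_Pr hD, ?_, fun N c _ hc => up_cong hc⟩
  · intro N hN x hx
    exact ⟨nm_cong hN hx.1, fun φ => nm_pos φ x (fun χ _ => hx.2 χ)⟩
  · intro φ x h
    exact nm_pos φ x (fun χ hχ => absurd ⟨χ, hχ⟩ h)

end Pool.Agent.Q106.AR
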