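import Pool.Agent.Q92.AR.Stm

/-! # Project AR, job NM: norms of divisors and of elements, first part -/

set_option autoImplicit false
set_option linter.unusedSectionVars false
set_option linter.deprecated false

namespace Pool.Agent.Q106.AR

open NumberField IsDedekindDomain Pool.Agent.Q5.BR Pool.Agent.Q92.AR

section
variable {F : Type} [Field F] [NumberField F]

/-- the divisor of an ideal -/
noncomputable def dvI (I : Ideal (𝓞 F)) : Dv F :=
  Finsupp.ofSupportFinite (fun v => FractionalIdeal.count F v (I : FractionalIdeal (nonZeroDivisors (𝓞 F)) F))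
    (by
      have h := FractionalIdeal.finite_factors (K := F) (I : FractionalIdeal (nonZeroDivisors (𝓞 F)) F)
      rw [Filter.eventually_cofinite] at h
      exact h)

theorem dvI_apply (I : Ideal (𝓞 F)) (v : HeightOneSpectrum (𝓞 F)) :
    dvI I v = FractionalIdeal.count F v (I : FractionalIdeal (nonZeroDivisors (𝓞 F)) F) := rfl

theorem dvI_mul {I J : Ideal (𝓞 F)} (hI : I ≠ ⊥) (hJ : J ≠ ⊥) : dvI (I * J) = dvI I + dvI J := by
  ext v
  rw [Finsupp.add_apply, dvI_apply, dvI_apply, dvI_apply, FractionalIdeal.coeIdeal_mul, FractionalIdeal.count_mul]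
  · exact FractionalIdeal.coeIdeal_ne_zero.2 hI
  · exact FractionalIdeal.coeIdeal_ne_zero.2 hJ

theorem dvI_top : dvI (⊤ : Ideal (𝓞 F)) = 0 := by
  ext v
  rw [dvI_apply, FractionalIdeal.coeIdeal_top, FractionalIdeal.count_one]
  rfl

theorem dvI_prime (w : HeightOneSpectrum (𝓞 F)) : dvI w.asIdeal = Finsupp.single w 1 := by
  classical
  ext v
  rw [dvI_apply, Finsupp.single_apply]
  split_ifs with h
  · rw [← h, FractionalIdeal.count_self]
  · exact FractionalIdeal.count_maximal_coprime F v h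

theorem dvI_pow {I : Ideal (𝓞 F)} (hI : I ≠ ⊥) (n : ℕ) : dvI (I ^ n) = n • dvI I := by
  induction n with
  | zero => rw [pow_zero, zero_smul, Ideal.one_eq_top, dvI_top]
  | succ n ih => rw [pow_succ, dvI_mul (pow_ne_zero n hI) hI, ih, succ_nsmul]

theorem dvI_span (a : 𝓞 F) (x : Fˣ) (hx : (x : F) = a) : dvI (Ideal.span {a}) = prin x := by
  ext v
  rw [dvI_apply, prin_apply, FractionalIdeal.coeIdeal_span_singleton, hx]

end

section
variable {F E : Type} [Field F] [NumberField F] [Field E] [NumberField E] [Algebra F E]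

theorem relNorm_prime (w : HeightOneSpectrum (𝓞 E)) :
    Ideal.relNorm (𝓞 F) w.asIdeal = (w.under (𝓞 F)).asIdeal ^ rdeg F w := by
  have h1 : w.asIdeal.LiesOver (w.under (𝓞 F)).asIdeal := ⟨rfl⟩
  have h2 : w.asIdeal.IsMaximal := w.isMaximal
  have h3 : (w.under (𝓞 F)).asIdeal.IsMaximal := (w.under (𝓞 F)).isMaximal
  rw [Ideal.relNorm_eq_pow_of_isMaximal w.asIdeal (w.under (𝓞 F)).asIdeal]
  unfold rdeg
  rw [Ideal.inertiaDeg'_eq_inertiaDeg]

theorem nmD_dvI (I : Ideal (𝓞 E)) : I ≠ ⊥ → nmD F E (dvI I) = dvI (Ideal.relNorm (𝓞 F) I) := by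
  refine UniqueFactorizationMonoid.induction_on_prime
    (P := fun I : Ideal (𝓞 E) => I ≠ ⊥ → nmD F E (dvI I) = dvI (Ideal.relNorm (𝓞 F) I)) I ?_ ?_ ?_
  · intro h
    exact absurd rfl h
  · intro I hI _
    rw [Ideal.isUnit_iff.1 hI, Ideal.relNorm_top, dvI_top, dvI_top, map_zero]
  · intro I P hI hP ih h
    have hP0 : P ≠ ⊥ := hP.ne_zero
    obtain ⟨w, hw⟩ : ∃ w : HeightOneSpectrum (𝓞 E), w.asIdeal = P := ⟨⟨P, Ideal.isPrime_of_prime hP, hP0⟩, rfl⟩
    have e1 : (w.under (𝓞 F)).asIdeal ≠ ⊥ := (w.under (𝓞 F)).ne_bot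
    have e2 : Ideal.relNorm (𝓞 F) I ≠ ⊥ := fun h' => hI (Ideal.relNorm_eq_bot_iff.1 h')
    rw [dvI_mul hP0 hI, map_add, ih hI, map_mul, ← hw, relNorm_prime, dvI_mul (pow_ne_zero _ e1) e2, dvI_pow e1, dvI_prime,
      dvI_prime, nmD_single, mul_one, Finsupp.smul_single, nsmul_eq_mul, mul_one]

/-- **The norm of a principal divisor.** -/
theorem nm_prin (x : Eˣ) : nmD F E (prin x) = prin (nu F E x) := by
  have key : ∀ (a : 𝓞 E) (y : Eˣ), (y : E) = a → nmD F E (prin y) = prin (nu F E y) := by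
    intro a y hy
    have ha : a ≠ 0 := by
      rintro rfl
      exact y.ne_zero (by rw [hy]; rfl)
    have h0 : Ideal.span {a} ≠ ⊥ := by
      rw [Ne, Ideal.span_singleton_eq_bot]
      exact ha
    rw [← dvI_span a y hy, nmD_dvI _ h0, Ideal.relNorm_singleton]
    apply dvI_span
    show Algebra.norm F (y : E) = _
    rw [hy]
    exact (Algebra.algebraMap_intNorm (A := 𝓞 F) (K := F) (L := E) (B := 𝓞 E) a).symm
  obtain ⟨a, b, hb, hab⟩ := IsFractionRing.div_surjective (A := 𝓞 E) (x : E)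
  have hb0 : algebraMap (𝓞 E) E b ≠ 0 := by
    intro h
    apply nonZeroDivisors.ne_zero hb
    exact (map_eq_zero_iff _ (FaithfulSMul.algebraMap_injective (𝓞 E) E)).1 h
  have ha0 : algebraMap (𝓞 E) E a ≠ 0 := by
    intro h
    rw [h, zero_div] at hab
    exact x.ne_zero hab.symm
  have hx : x = Units.mk0 _ ha0 / Units.mk0 _ hb0 := by
    apply Units.ext
    rw [Units.val_div_eq_div_val]
    exact hab.symm
  rw [hx, prin_div, map_sub, key a _ rfl, key b _ rfl, map_div, prin_div]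

theorem nm_Pr {N : ℕ} {D : Dv E} (hD : D ∈ Pr E N) : nmD F E D ∈ Pr F N := by
  classical
  intro v hv
  have h1 : nmD F E D = D.sum (fun w k => Finsupp.single (w.under (𝓞 F)) ((rdeg F w : ℤ) * k)) := by
    conv_lhs => rw [← Finsupp.sum_single D]
    rw [map_finsuppSum]
    exact Finsupp.sum_congr (fun w _ => nmD_single F E w (D w))
  rw [h1, Finsupp.sum, Finsupp.finsetSum_apply]
  refine Finset.sum_eq_zero (fun w _ => ?_)
  rw [Finsupp.single_apply]
  split_ifs with h
  · have : (N : 𝓞 E) ∈ w.asIdeal := by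
      rw [← h] at hv
      have h2 : algebraMap (𝓞 F) (𝓞 E) (N : 𝓞 F) ∈ w.asIdeal := hv
      rwa [map_natCast] at h2
    rw [hD w this, mul_zero]
  · rfl

theorem up_cong {N : ℕ} {c : Fˣ} (hc : Cong N (c : F)) : Cong N (up F E c : E) := by
  intro w hw
  have h1 : w.asIdeal.LiesOver (w.under (𝓞 F)).asIdeal := ⟨rfl⟩
  have hv : (N : 𝓞 F) ∈ (w.under (𝓞 F)).asIdeal := by
    show algebraMap (𝓞 F) (𝓞 E) (N : 𝓞 F) ∈ w.asIdeal
    rwa [map_natCast]
  have h2 := hc _ hv
  have h3 : ∀ y : F, w.valuation E (algebraMap F E y) =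
      (w.under (𝓞 F)).valuation F y ^ ((w.under (𝓞 F)).asIdeal.ramificationIdx' w.asIdeal) := fun y =>
    (HeightOneSpectrum.valuation_liesOver E (w.under (𝓞 F)) w y).symm
  have e1 : (up F E c : E) - 1 = algebraMap F E ((c : F) - 1) := by
    rw [map_sub, map_one]
    rfl
  have e2 : (N : E) = algebraMap F E (N : F) := by rw [map_natCast]
  rw [e1, e2, h3, h3]
  exact pow_le_pow_left₀ zero_le' h2 _

end

end Pool.Agent.Q106.AR
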